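import Mathlib

set_option autoImplicit false

/-!
# The dual irregularity strength is not linear in the number of edges

Colour the edges of `K_n` with `D` colours at random. For each labelling of the vertices with small
labels there are many disjoint pairs of edges with equal sums, so with overwhelming probability
every colour class contains two edges with equal sums, for all labellings simultaneously.
The smallest colour class has at most `N / D` edges.
-/

namespace Pool.Agent.H273R2.DualStrength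

open Finset Classical

variable {α : Type} [Fintype α]

/-- colourings `h` of `α` for which `σ` is injective on the elements of `E` of colour `i` -/
noncomputable def good (D : ℕ) (σ : α → ℕ) (i : Fin D) (E : Finset α) : Finset (α → Fin D) :=
  univ.filter fun h => ∀ a ∈ E, ∀ b ∈ E, h a = i → h b = i → σ a = σ b → a = b

lemma step (D : ℕ) (σ : α → ℕ) (i : Fin D) (E : Finset α) (a b : α) (ha : a ∉ E) (hb : b ∉ E)
    (hab : a ≠ b) (hs : σ a = σ b) :
    D ^ 2 * (good D σ i (insert a (insert b E))).card ≤ (D ^ 2 - 1) * (good D σ i E).card := by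
  set Z := (good D σ i E).filter fun h => h a = i ∧ h b = i with hZ
  have h1 : (good D σ i (insert a (insert b E))) ⊆ (good D σ i E) \ Z := by
    intro h hh
    simp only [good, mem_filter, mem_univ, true_and] at hh
    simp only [hZ, good, mem_sdiff, mem_filter, mem_univ, true_and, not_and]
    refine ⟨fun x hx y hy => hh x (by simp [hx]) y (by simp [hy]), fun _ h1 h2 => ?_⟩
    exact hab (hh a (by simp) b (by simp) h1 h2 hs)
  have h2 : (good D σ i E).card ≤ D ^ 2 * Z.card := by
    have : (good D σ i E).card ≤ ((univ : Finset (Fin D × Fin D)) ×ˢ Z).card := by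
      apply card_le_card_of_injOn
        (fun h => ((h a, h b), Function.update (Function.update h a i) b i))
      · intro h hh
        simp only [coe_product, Set.mem_prod, mem_coe, mem_univ, true_and]
        simp only [good, coe_filter, mem_univ, true_and, Set.mem_ofPred_eq] at hh
        simp only [hZ, good, mem_filter, mem_univ, true_and]
        refine ⟨?_, ?_, ?_⟩
        · intro x hx y hy
          have hxa : x ≠ a := fun h => ha (h ▸ hx)
          have hxb : x ≠ b := fun h => hb (h ▸ hx)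
          have hya : y ≠ a := fun h => ha (h ▸ hy)
          have hyb : y ≠ b := fun h => hb (h ▸ hy)
          rw [Function.update_of_ne hxb, Function.update_of_ne hxa, Function.update_of_ne hyb,
            Function.update_of_ne hya]
          exact hh x hx y hy
        · rw [Function.update_of_ne hab, Function.update_self]
        · rw [Function.update_self]
      · intro h _ h' _ he
        simp only [Prod.mk.injEq] at he
        obtain ⟨⟨e1, e2⟩, e3⟩ := he
        funext x
        by_cases hxa : x = a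
        · subst hxa; exact e1
        by_cases hxb : x = b
        · subst hxb; exact e2
        have := congrFun e3 x
        rwa [Function.update_of_ne hxb, Function.update_of_ne hxa, Function.update_of_ne hxb,
          Function.update_of_ne hxa] at this
    rw [card_product, card_univ, Fintype.card_prod, Fintype.card_fin] at this
    calc _ ≤ _ := this
      _ = _ := by ring
  have h3 := card_le_card h1
  have hZs : Z ⊆ good D σ i E := filter_subset _ _
  rw [card_sdiff_of_subset hZs] at h3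
  have h4 := card_le_card hZs
  have hD : 0 < D := i.pos
  have hD2 : 1 ≤ D ^ 2 := Nat.one_le_pow _ _ hD
  zify [h4, hD2] at h3 h2 ⊢
  nlinarith [h3, h2]

lemma count (D : ℕ) (σ : α → ℕ) (i : Fin D) (t : ℕ) (hσ : ∀ a, σ a < t) :
    ∀ (K : ℕ) (E : Finset α), t + 2 * K ≤ E.card →
      D ^ (2 * K) * (good D σ i E).card ≤ (D ^ 2 - 1) ^ K * D ^ (Fintype.card α) := by
  intro K
  induction K with
  | zero =>
    intro E _
    have : (good D σ i E).card ≤ Fintype.card (α → Fin D) := card_le_univ _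
    rw [Fintype.card_fun, Fintype.card_fin] at this
    simpa using this
  | succ K ih =>
    intro E hE
    have hp : ∃ a ∈ E, ∃ b ∈ E, a ≠ b ∧ σ a = σ b := by
      apply exists_ne_map_eq_of_card_lt_of_maps_to (t := range t)
      · rw [card_range]; omega
      · intro a _; simp [hσ a]
    obtain ⟨a, ha, b, hb, hab, hs⟩ := hp
    have hE' : E = insert a (insert b ((E.erase a).erase b)) := by
      rw [insert_erase (mem_erase.2 ⟨hab.symm, hb⟩), insert_erase ha]
    have hcard : ((E.erase a).erase b).card = E.card - 2 := by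
      rw [card_erase_of_mem (mem_erase.2 ⟨hab.symm, hb⟩), card_erase_of_mem ha]; omega
    have h1 := ih ((E.erase a).erase b) (by omega)
    have h2 := step D σ i ((E.erase a).erase b) a b (by simp) (by simp) hab hs
    rw [← hE'] at h2
    calc D ^ (2 * (K + 1)) * (good D σ i E).card
        = D ^ (2 * K) * (D ^ 2 * (good D σ i E).card) := by ring
      _ ≤ D ^ (2 * K) * ((D ^ 2 - 1) * (good D σ i ((E.erase a).erase b)).card) :=
          Nat.mul_le_mul_left _ h2
      _ = (D ^ 2 - 1) * (D ^ (2 * K) * (good D σ i ((E.erase a).erase b)).card) := by ring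
      _ ≤ (D ^ 2 - 1) * ((D ^ 2 - 1) ^ K * D ^ (Fintype.card α)) := Nat.mul_le_mul_left _ h1
      _ = (D ^ 2 - 1) ^ (K + 1) * D ^ (Fintype.card α) := by ring

lemma bern (y : ℕ) : ∀ m : ℕ, y ^ m * (y + m) ≤ y * (y + 1) ^ m := by
  intro m
  induction m with
  | zero => simp
  | succ m ih =>
    calc y ^ (m + 1) * (y + (m + 1)) = y ^ m * (y * (y + m + 1)) := by ring
      _ ≤ y ^ m * ((y + m) * (y + 1)) := by
          apply Nat.mul_le_mul_left; nlinarith
      _ = (y ^ m * (y + m)) * (y + 1) := by ring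
      _ ≤ (y * (y + 1) ^ m) * (y + 1) := Nat.mul_le_mul_right _ ih
      _ = y * (y + 1) ^ (m + 1) := by ring

/-- `2 (x-1)^x ≤ x^x` -/
lemma two_mul_pow_le (x : ℕ) (hx : 1 ≤ x) : 2 * (x - 1) ^ x ≤ x ^ x := by
  obtain ⟨y, rfl⟩ : ∃ y, x = y + 1 := ⟨x - 1, by omega⟩
  simp only [Nat.add_sub_cancel]
  rcases Nat.eq_zero_or_pos y with h | h
  · subst h; simp
  have h1 := bern y (y + 1)
  have h2 : y * (2 * y ^ (y + 1)) ≤ y * (y + 1) ^ (y + 1) := by
    calc y * (2 * y ^ (y + 1)) = y ^ (y + 1) * (2 * y) := by ring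
      _ ≤ y ^ (y + 1) * (y + (y + 1)) := Nat.mul_le_mul_left _ (by omega)
      _ ≤ _ := h1
  exact Nat.le_of_mul_le_mul_left h2 h

/-- union bound: there is a colouring all of whose colour classes are bad for all labellings -/
lemma exists_bad {ι : Type} [Fintype ι] (D t K L : ℕ) (hD : 1 ≤ D) (hK : K = D ^ 2 * L)
    (σ : ι → α → ℕ) (hσ : ∀ f a, σ f a < t) (hc : t + 2 * K ≤ Fintype.card α)
    (hlt : D * Fintype.card ι < 2 ^ L) :
    ∃ h : α → Fin D, ∀ (i : Fin D) (f : ι), ∃ a b : α, a ≠ b ∧ h a = i ∧ h b = i ∧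
      σ f a = σ f b := by
  by_contra hcon
  push Not at hcon
  have hall : (univ : Finset (α → Fin D)) ⊆
      (univ : Finset (Fin D × ι)).biUnion fun p => good D (σ p.2) p.1 univ := by
    intro h _
    obtain ⟨i, f, hf⟩ := hcon h
    refine mem_biUnion.2 ⟨(i, f), mem_univ _, ?_⟩
    simp only [good, mem_filter, mem_univ, true_and]
    intro a _ b _ h1 h2 h3
    by_contra hab
    exact hf a b hab h1 h2 h3
  have h1 := card_le_card hall
  have h2 : D ^ (2 * K) * ((univ : Finset (Fin D × ι)).biUnion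
      fun p => good D (σ p.2) p.1 univ).card ≤
      (D * Fintype.card ι) * ((D ^ 2 - 1) ^ K * D ^ (Fintype.card α)) := by
    calc D ^ (2 * K) * ((univ : Finset (Fin D × ι)).biUnion
          fun p => good D (σ p.2) p.1 univ).card
        ≤ D ^ (2 * K) * ∑ p : Fin D × ι, (good D (σ p.2) p.1 univ).card :=
          Nat.mul_le_mul_left _ card_biUnion_le
      _ = ∑ p : Fin D × ι, D ^ (2 * K) * (good D (σ p.2) p.1 univ).card := by
          rw [mul_sum]
      _ ≤ ∑ _p : Fin D × ι, ((D ^ 2 - 1) ^ K * D ^ (Fintype.card α)) :=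
          sum_le_sum fun p _ => count D (σ p.2) p.1 t (hσ p.2) K univ (by rwa [card_univ])
      _ = _ := by
          rw [sum_const, card_univ, Fintype.card_prod, Fintype.card_fin, smul_eq_mul]
  have h3 : 2 ^ L * (D ^ 2 - 1) ^ K ≤ D ^ (2 * K) := by
    have h4 := Nat.pow_le_pow_left (two_mul_pow_le (D ^ 2) (Nat.one_le_pow _ _ hD)) L
    rw [mul_pow, ← pow_mul, ← pow_mul, ← hK, ← pow_mul] at h4
    exact h4
  rw [card_univ, Fintype.card_fun, Fintype.card_fin] at h1
  have hpos : 0 < D ^ (Fintype.card α) := Nat.pow_pos hD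
  have h5 : D ^ (2 * K) * D ^ (Fintype.card α) ≤
      (D * Fintype.card ι) * ((D ^ 2 - 1) ^ K * D ^ (Fintype.card α)) :=
    (Nat.mul_le_mul_left _ h1).trans h2
  have h6 : D ^ (2 * K) ≤ (D * Fintype.card ι) * (D ^ 2 - 1) ^ K := by
    rw [← mul_assoc] at h5
    exact Nat.le_of_mul_le_mul_right h5 hpos
  have h7 : 0 < (D ^ 2 - 1) ^ K := by
    rcases Nat.eq_zero_or_pos ((D ^ 2 - 1) ^ K) with h | h
    · rw [h, mul_zero] at h6
      exact absurd h6 (not_le.2 (Nat.pow_pos hD))
    · exact h
  have h8 : 2 ^ L * (D ^ 2 - 1) ^ K ≤ (D * Fintype.card ι) * (D ^ 2 - 1) ^ K := h3.trans h6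
  have h9 := Nat.le_of_mul_le_mul_right h8 h7
  omega

/-- the pairs `i < j` -/
abbrev Pr (n : ℕ) : Type := {p : Fin n × Fin n // p.1 < p.2}

lemma card_Pr (n : ℕ) : 2 * Fintype.card (Pr n) + n = n * n := by
  have h1 : (univ.filter fun p : Fin n × Fin n => p.1 < p.2).card =
      (univ.filter fun p : Fin n × Fin n => p.2 < p.1).card := by
    apply card_bij (fun p _ => (p.2, p.1))
    · intro p hp; simpa using hp
    · intro p _ q _ h; simp only [Prod.mk.injEq] at h; exact Prod.ext h.2 h.1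
    · intro p hp; exact ⟨(p.2, p.1), by simpa using hp, rfl⟩
  have h2 : (univ.filter fun p : Fin n × Fin n => p.1 = p.2).card = n := by
    have : (univ.filter fun p : Fin n × Fin n => p.1 = p.2) = univ.image fun i : Fin n => (i, i) := by
      ext ⟨i, j⟩; simp
    rw [this, card_image_of_injective _ (fun i j h => (Prod.mk.inj h).1), card_univ, Fintype.card_fin]
  have h3 : (univ : Finset (Fin n × Fin n)) = (univ.filter fun p => p.1 < p.2) ∪
      ((univ.filter fun p => p.2 < p.1) ∪ (univ.filter fun p => p.1 = p.2)) := by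
    ext ⟨i, j⟩
    simp only [mem_univ, mem_union, mem_filter, true_and, true_iff]
    rcases lt_trichotomy i j with h | h | h
    · exact Or.inl h
    · exact Or.inr (Or.inr h)
    · exact Or.inr (Or.inl h)
  have h4 : (univ : Finset (Fin n × Fin n)).card = n * n := by simp
  rw [h3, card_union_of_disjoint, card_union_of_disjoint, ← h1, h2] at h4
  · rw [Fintype.card_subtype]; omega
  · rw [disjoint_left]; intro ⟨i, j⟩; simp only [mem_filter, mem_univ, true_and]
    intro h h'; exact absurd h' (ne_of_gt h)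
  · rw [disjoint_left]; intro ⟨i, j⟩; simp only [mem_filter, mem_univ, true_and, mem_union, not_or]
    intro h; exact ⟨not_lt.2 h.le, ne_of_lt h⟩

/-- the colour class `i` -/
def cls {n D : ℕ} (h : Pr n → Fin D) (i : Fin D) : SimpleGraph (Fin n) where
  Adj u v := ∃ p : Pr n, h p = i ∧ ((p.1.1 = u ∧ p.1.2 = v) ∨ (p.1.1 = v ∧ p.1.2 = u))
  symm := ⟨fun u v ⟨p, h1, h2⟩ => ⟨p, h1, h2.symm⟩⟩
  loopless := ⟨fun u ⟨p, _, h2⟩ => by
    have := p.2
    rcases h2 with ⟨h3, h4⟩ | ⟨h3, h4⟩ <;> rw [h3, h4] at this <;> exact absurd this (lt_irrefl _)⟩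

lemma card_cls {n D : ℕ} (h : Pr n → Fin D) (i : Fin D) :
    Nat.card (cls h i).edgeSet ≤ (univ.filter fun p => h p = i).card := by
  have h1 : (cls h i).edgeSet ⊆
      ((univ.filter fun p => h p = i).image fun p : Pr n => s(p.1.1, p.1.2) : Finset (Sym2 (Fin n))) := by
    intro e
    induction e using Sym2.ind with
    | _ u v =>
      rw [SimpleGraph.mem_edgeSet]
      rintro ⟨p, h1, h2⟩
      simp only [coe_image, coe_filter, mem_univ, true_and, Set.mem_image]
      refine ⟨p, h1, ?_⟩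
      rcases h2 with ⟨h3, h4⟩ | ⟨h3, h4⟩
      · rw [h3, h4]
      · rw [h3, h4, Sym2.eq_swap]
  calc Nat.card (cls h i).edgeSet = (cls h i).edgeSet.ncard := rfl
    _ ≤ ((univ.filter fun p => h p = i).image fun p : Pr n => s(p.1.1, p.1.2) : Finset (Sym2 (Fin n))).card := by
        rw [← Set.ncard_coe_finset]
        exact Set.ncard_le_ncard h1 (Finset.finite_toSet _)
    _ ≤ _ := card_image_le

theorem main : ¬ (∃ c : ℕ, ∀ (V : Type) [Fintype V] (G : SimpleGraph V),
      0 < Nat.card G.edgeSet →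
      ∃ f : V → ℕ, (∀ v, 0 < f v) ∧ (∀ v, f v ≤ c * Nat.card G.edgeSet) ∧
        ∀ a b x y : V, G.Adj a b → G.Adj x y → f a + f b = f x + f y →
          s(a, b) = s(x, y)) := by
  rintro ⟨c, hc⟩
  set D := 8 * (c + 1) with hD
  -- choice of `k`
  obtain ⟨k, hk1, hk⟩ : ∃ k, 1 ≤ k ∧ 64 * D ^ 2 * k ≤ 2 ^ k := by
    have hD2 : 1 ≤ D ^ 2 := Nat.one_le_pow _ _ (by omega)
    refine ⟨2 * (64 * D ^ 2), by omega, ?_⟩
    have h1 : 64 * D ^ 2 < 2 ^ (64 * D ^ 2) := Nat.lt_two_pow_self
    have h2 : 2 * (64 * D ^ 2) ≤ 2 ^ (64 * D ^ 2) := by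
      obtain ⟨y, hy⟩ : ∃ y, 64 * D ^ 2 = y + 1 := ⟨64 * D ^ 2 - 1, by
        have : 1 ≤ D ^ 2 := Nat.one_le_pow _ _ (by omega)
        omega⟩
      rw [hy, pow_succ]
      have : y < 2 ^ y := Nat.lt_two_pow_self
      omega
    calc 64 * D ^ 2 * (2 * (64 * D ^ 2)) ≤ 2 ^ (64 * D ^ 2) * 2 ^ (64 * D ^ 2) :=
          Nat.mul_le_mul h1.le h2
      _ = 2 ^ (2 * (64 * D ^ 2)) := by rw [two_mul, pow_add]
  obtain ⟨n, hn⟩ : ∃ n, n = 2 ^ k := ⟨_, rfl⟩
  rw [← hn] at hk
  set N := Fintype.card (Pr n) with hN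
  have hN2 : 2 * N + n = n * n := card_Pr n
  set s := c * (N / D) with hs
  set L := k * (2 * n + 1) + 1 with hL
  have hD1 : 1 ≤ D := by omega
  have hD8 : 8 ≤ D := by omega
  have hn64 : 64 ≤ n := by
    have : 64 * 1 * 1 ≤ 64 * D ^ 2 * k :=
      Nat.mul_le_mul (Nat.mul_le_mul_left _ (Nat.one_le_pow _ _ hD1)) hk1
    omega
  have hs8 : 8 * s ≤ N := by
    have h1 : D * (N / D) ≤ N := Nat.mul_div_le N D
    have h2 : 8 * s ≤ D * (N / D) := by
      rw [hs, hD, ← mul_assoc]
      exact Nat.mul_le_mul_right _ (by omega)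
    omega
  have hnn : 64 * n ≤ n * n := Nat.mul_le_mul_right _ hn64
  -- the main inequality
  have hmain : (2 * s + 1) + 2 * (D ^ 2 * L) ≤ N := by
    have h1 : L ≤ 4 * (k * n) := by
      have : n ≤ k * n := Nat.le_mul_of_pos_left _ hk1
      have h2 : k ≤ k * n := Nat.le_mul_of_pos_right _ (by omega)
      have h3 : k * (2 * n + 1) = 2 * (k * n) + k := by ring
      have h4 : k * 64 ≤ k * n := Nat.mul_le_mul_left _ hn64
      omega
    have h2 : 8 * (2 * (D ^ 2 * L)) ≤ n * n := by
      calc 8 * (2 * (D ^ 2 * L)) ≤ 8 * (2 * (D ^ 2 * (4 * (k * n)))) := by gcongr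
        _ = (64 * D ^ 2 * k) * n := by ring
        _ ≤ n * n := Nat.mul_le_mul_right _ hk
    omega
  have hsn : s + 1 ≤ n ^ 2 := by
    have : n ^ 2 = n * n := by ring
    omega
  have hDn : D ≤ n := by
    have : D * 1 * 1 ≤ 64 * D ^ 2 * k := by
      apply Nat.mul_le_mul _ hk1
      nlinarith
    omega
  have hlt : D * Fintype.card (Fin n → Fin (s + 1)) < 2 ^ L := by
    rw [Fintype.card_fun, Fintype.card_fin, Fintype.card_fin]
    calc D * (s + 1) ^ n ≤ n * (n ^ 2) ^ n := Nat.mul_le_mul hDn (Nat.pow_le_pow_left hsn _)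
      _ = n ^ (2 * n + 1) := by rw [← pow_mul]; ring
      _ = 2 ^ (k * (2 * n + 1)) := by
          conv_lhs => rw [hn]
          rw [← pow_mul]
          rw [← hn]
      _ < 2 ^ L := Nat.pow_lt_pow_right (by norm_num) (by omega)
  obtain ⟨h, hh⟩ := exists_bad (α := Pr n) (ι := Fin n → Fin (s + 1)) D (2 * s + 1) (D ^ 2 * L) L
    hD1 rfl (fun f p => (f p.1.1 : ℕ) + (f p.1.2 : ℕ))
    (fun f p => by have := (f p.1.1).2; have := (f p.1.2).2; omega) hmain hlt
  -- the smallest class
  obtain ⟨i, -, hi⟩ : ∃ i ∈ (univ : Finset (Fin D)), (univ.filter fun p => h p = i).card ≤ N / D := by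
    by_contra hcon
    push Not at hcon
    have h1 : N = ∑ i : Fin D, (univ.filter fun p => h p = i).card := by
      rw [hN, ← card_univ]
      exact card_eq_sum_card_fiberwise (fun x _ => mem_univ _)
    have h2 : ∑ i : Fin D, (N / D + 1) ≤ ∑ i : Fin D, (univ.filter fun p => h p = i).card :=
      sum_le_sum fun i _ => hcon i (mem_univ _)
    rw [← h1, sum_const, card_univ, Fintype.card_fin, smul_eq_mul] at h2
    have h3 : N < D * (N / D + 1) := by
      have := Nat.lt_mul_div_succ N (show 0 < D by omega)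
      exact this
    omega
  have hm := (card_cls h i).trans hi
  have hpos : 0 < Nat.card (cls h i).edgeSet := by
    obtain ⟨a, b, hab, h1, h2, h3⟩ := hh i (fun _ => 0)
    have : Nonempty (cls h i).edgeSet := ⟨⟨s(a.1.1, a.1.2), by
      rw [SimpleGraph.mem_edgeSet]; exact ⟨a, h1, Or.inl ⟨rfl, rfl⟩⟩⟩⟩
    exact Nat.card_pos
  obtain ⟨f, _, hf2, hf3⟩ := hc (Fin n) (cls h i) hpos
  have hfs : ∀ v, f v < s + 1 := fun v => by
    have h1 := hf2 v
    have h2 : c * Nat.card (cls h i).edgeSet ≤ c * (N / D) := Nat.mul_le_mul_left _ hm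
    omega
  obtain ⟨a, b, hab, h1, h2, h3⟩ := hh i (fun v => ⟨f v, hfs v⟩)
  simp only at h3
  have h4 := hf3 a.1.1 a.1.2 b.1.1 b.1.2 ⟨a, h1, Or.inl ⟨rfl, rfl⟩⟩ ⟨b, h2, Or.inl ⟨rfl, rfl⟩⟩ h3
  apply hab
  have ha := a.2
  have hb := b.2
  rw [Sym2.eq_iff] at h4
  rcases h4 with ⟨h5, h6⟩ | ⟨h5, h6⟩
  · exact Subtype.ext (Prod.ext h5 h6)
  · rw [h5, h6] at ha
    exact absurd ha (not_lt.2 hb.le)

end Pool.Agent.H273R2.DualStrength
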